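import Mathlib
import Pool.Agent.Helper9.NS
import Pool.Agent.Helper26.VC.Main4
import Pool.Agent.Helper70.VP.Norm
import Pool.Agent.Helper15.VN.Res
import Pool.Agent.Helper51.VB.Defs

/-!
# Norms for a cover of the projective line

`L` is a function field, `q` a nonconstant element, `K` Galois over `k (q)`, `Q` the image of `q` in
`K`. For `g ≠ 0` with neither zeros nor poles at the poles of `q` the product of the conjugates of
`g` is a constant times `∏ (1 - Q⁻¹ q (P)) ^ (ord P g)`.
-/

set_option linter.unusedSectionVars false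

namespace Pool.Agent.Helper15.VB

open VC VP VF Function IntermediateField Polynomial
open Pool.Agent.Helper51.VB Pool.Agent.Helper15.VN

universe u

section basic

variable {k K : Type u} [Field k] [IsAlgClosed k] [CharZero k] [Field K] [Algebra k K]
  (hK : IsFunctionField k K) {v : Place k K}

include hK in
lemma ord_zpow' {x : K} (hx : x ≠ 0) (m : ℤ) : ord v.ring (x ^ m) = m * ord v.ring x := by
  obtain ⟨n, rfl | rfl⟩ := m.eq_nat_or_neg
  · rw [zpow_natCast, ord_pow hK v hx]
  · rw [zpow_neg, zpow_natCast, ord_inv hK v (pow_ne_zero _ hx), ord_pow hK v hx]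
    ring

lemma isRes_zpow {x : K} (h : IsRes v x 1) (m : ℤ) : IsRes v (x ^ m) 1 := by
  obtain ⟨n, rfl | rfl⟩ := m.eq_nat_or_neg
  · rw [zpow_natCast]
    have := h.pow n
    rwa [one_pow] at this
  · rw [zpow_neg, zpow_natCast]
    have h1 := h.pow n
    rw [one_pow] at h1
    have := isRes_inv h1 one_ne_zero
    rwa [inv_one] at this

lemma isRes_prod {α : Type*} (s : Finset α) {f : α → K} {g : α → k}
    (h : ∀ i ∈ s, IsRes v (f i) (g i)) : IsRes v (∏ i ∈ s, f i) (∏ i ∈ s, g i) := by
  classical
  induction s using Finset.induction_on with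
  | empty => simpa using isRes_one
  | insert a s ha ih =>
    rw [Finset.prod_insert ha, Finset.prod_insert ha]
    exact (h a (Finset.mem_insert_self _ _)).mul
      (ih (fun i hi => h i (Finset.mem_insert_of_mem hi)))

include hK in
lemma ord_of_res {x : K} {c : k} (h : IsRes v x c) (hc : c ≠ 0) : ord v.ring x = 0 := by
  have h2 := h.ne_zero hc
  have h3 := (ord_nonneg_iff hK v h2).mpr h.mem
  have h4 : ¬ 0 < ord v.ring x := by
    rw [ord_pos_iff hK v h2]
    intro h5
    exact hc (h.unique (isRes_zero_iff.mpr h5))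
  omega

include hK in
/-- An element without zeros and poles is constant. -/
lemma const_of_ord {x : K} (hx : x ≠ 0) (h : ∀ w : Place k K, ord w.ring x = 0) :
    ∃ c : k, x = algebraMap k K c := by
  by_cases ht : Transcendental k x
  · obtain ⟨w, hw⟩ := exists_place hK ht
    have h1 := (ord_pos_iff hK w hx).mpr hw
    have h2 := h w
    omega
  · obtain ⟨c, hc⟩ := exists_const_of_not_transcendental ht
    exact ⟨c, hc.symm⟩

end basic

/-- The embeddings of `L` in `K` over `k (q)`. -/
abbrev Ems (k : Type u) {L : Type u} (K : Type u) [Field k] [Field L] [Algebra k L] [Field K]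
    [Algebra k K] [Algebra L K] (q : L) : Type u := {φ : L →ₐ[k] K // φ q = algebraMap L K q}

section cover

variable {k L K : Type u} [Field k] [IsAlgClosed k] [CharZero k] [Field L] [Algebra k L]
  [Field K] [Algebra k K] [Algebra L K] [IsScalarTower k L K]
  (hL : IsFunctionField k L) (hK : IsFunctionField k K) {q : L} (hq : Transcendental k q)
  {G : Type u} [Group G] [Finite G] [MulSemiringAction G K]
  (hG : IsGaloisGroup G k⟮algebraMap L K q⟯ K) [Fintype (Ems k K q)]

include hq hG in
open Classical in
/-- The number of embeddings which induce a given place, over `q = a`. -/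
lemma cnt_val (a : k) (v : Place k K)
    (hv : algebraMap L K q - algebraMap k K a ∈ v.ring.nonunits) (P : Place k L) :
    ((Finset.univ.filter (fun φ : Ems k K q => Place.comap hL hK φ.1 v = P)).card : ℤ) =
      max (ord P.ring (q - algebraMap k L a)) 0 := by
  have e1 : algebraMap L K (q - algebraMap k L a) = algebraMap L K q - algebraMap k K a := by
    rw [map_sub, ← IsScalarTower.algebraMap_apply]
  rw [← card_cover hL hK (q - algebraMap k L a) (transcendental_sub hq a) G
    (by rw [e1, adjoin_sub]; exact hG) v (by rw [e1]; exact hv) P, ← Fintype.card_subtype,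
    ← Nat.card_eq_fintype_card]
  congr 1
  refine Nat.card_congr ⟨fun φ => ⟨φ.1.1, ?_, φ.2⟩, fun φ => ⟨⟨φ.1, ?_⟩, φ.2.2⟩,
    fun φ => rfl, fun φ => rfl⟩
  · rw [e1, map_sub, φ.1.2, AlgHom.commutes]
  · have h := φ.2.1.trans e1
    rw [map_sub, AlgHom.commutes, sub_left_inj] at h
    exact h

include hq hG in
open Classical in
/-- The number of embeddings which induce a given place, over the poles of `q`. -/
lemma cnt_inf (v : Place k K) (hv : (algebraMap L K q)⁻¹ ∈ v.ring.nonunits) (P : Place k L) :
    ((Finset.univ.filter (fun φ : Ems k K q => Place.comap hL hK φ.1 v = P)).card : ℤ) =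
      max (-ord P.ring q) 0 := by
  have hq0 : q ≠ 0 := by
    rintro rfl
    exact hq isAlgebraic_zero
  rw [← ord_inv hL P hq0, ← card_cover hL hK q⁻¹ (transcendental_inv hq) G
    (by rw [map_inv₀, adjoin_inv]; exact hG) v (by rw [map_inv₀]; exact hv) P,
    ← Fintype.card_subtype, ← Nat.card_eq_fintype_card]
  congr 1
  refine Nat.card_congr ⟨fun φ => ⟨φ.1.1, ?_, φ.2⟩, fun φ => ⟨⟨φ.1, ?_⟩, φ.2.2⟩,
    fun φ => rfl, fun φ => rfl⟩
  · rw [map_inv₀, map_inv₀, φ.1.2]
  · exact inv_injective ((map_inv₀ φ.1 q).symm.trans (φ.2.1.trans (map_inv₀ (algebraMap L K) q)))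

include hK hG in
/-- The order of the norm at the places over `q = a`. -/
lemma ord_prod_ems {g : L} (hg : g ≠ 0) (a : k) (v : Place k K)
    (hv : algebraMap L K q - algebraMap k K a ∈ v.ring.nonunits) :
    ord v.ring (∏ φ : Ems k K q, φ.1 g) = ord v.ring (algebraMap L K q - algebraMap k K a) *
      ∑ P ∈ VP.fib hL hq a, ord P.ring g := by
  classical
  have hW0 : ∀ φ : Ems k K q, φ.1 g ≠ 0 := fun φ => (_root_.map_ne_zero φ.1).mpr hg
  have hta : q - algebraMap k L a ≠ 0 := by
    intro h0
    have := transcendental_sub hq a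
    rw [h0] at this
    exact this isAlgebraic_zero
  rw [ord_prod hK v _ _ (fun φ _ => hW0 φ)]
  have hmaps : ∀ φ ∈ (Finset.univ : Finset (Ems k K q)),
      Place.comap hL hK φ.1 v ∈ VP.fib hL hq a := by
    intro φ _
    rw [VP.mem_fib]
    change _ ∈ (v.ring.comap φ.1.toRingHom).nonunits
    rw [mem_nonunits_comap]
    change φ.1 (q - algebraMap k L a) ∈ _
    rw [map_sub, φ.2, AlgHom.commutes]
    exact hv
  rw [← Finset.sum_fiberwise_of_maps_to hmaps, Finset.mul_sum]
  apply Finset.sum_congr rfl
  intro P hP
  rw [VP.mem_fib, ← ord_pos_iff hL P hta] at hP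
  set n := ord P.ring (q - algebraMap k L a) with hn
  have hcard := cnt_val hL hK hq hG a v hv P
  rw [max_eq_left (by omega), ← hn] at hcard
  have hterm : ∀ φ ∈ ((Finset.univ : Finset (Ems k K q)).filter
      (fun φ => Place.comap hL hK φ.1 v = P)), n * ord v.ring (φ.1 g) =
        ord v.ring (algebraMap L K q - algebraMap k K a) * ord P.ring g := by
    intro φ hφ
    rw [Finset.mem_filter] at hφ
    obtain ⟨e, he, hord⟩ := ord_comap hL hK φ.1 v
    rw [hφ.2] at hord
    have h2 := hord _ hta
    rw [map_sub, φ.2, AlgHom.commutes] at h2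
    rw [h2, hord _ hg, ← hn]
    ring
  apply mul_left_cancel₀ (show n ≠ 0 by omega)
  rw [Finset.mul_sum, Finset.sum_congr rfl hterm, Finset.sum_const, nsmul_eq_mul, hcard]

/-- `1 + s c` with `s = - 1 / Q`. -/
def un (K : Type u) [Field K] [Algebra k K] [Algebra L K] (q : L) (c : k) : K :=
  1 - (algebraMap L K q)⁻¹ * algebraMap k K c

include hq in
lemma Q_tr : Transcendental k (algebraMap L K q) :=
  (transcendental_algebraMap_iff (algebraMap L K).injective).mpr hq

include hq in
lemma Q_ne : algebraMap L K q ≠ 0 := by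
  intro h
  have := Q_tr (K := K) hq
  rw [h] at this
  exact this isAlgebraic_zero

include hq in
lemma Q_sub_ne (c : k) : algebraMap L K q - algebraMap k K c ≠ 0 := by
  intro h
  have := transcendental_sub (Q_tr (K := K) hq) c
  rw [h] at this
  exact this isAlgebraic_zero

include hq in
lemma un_mul (c : k) : un K q c * algebraMap L K q = algebraMap L K q - algebraMap k K c := by
  have := Q_ne (K := K) hq
  unfold un
  field_simp

include hq in
lemma un_ne (c : k) : un K q c ≠ 0 := by
  intro h
  have h1 := un_mul (K := K) hq c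
  rw [h, zero_mul] at h1
  exact Q_sub_ne hq c h1.symm

include hK hq in
lemma ord_un (v : Place k K) (c : k) : ord v.ring (un K q c) =
    ord v.ring (algebraMap L K q - algebraMap k K c) - ord v.ring (algebraMap L K q) := by
  rw [← un_mul hq c, ord_mul hK v (un_ne hq c) (Q_ne hq)]
  ring

lemma un_res {v : Place k K} (hv : (algebraMap L K q)⁻¹ ∈ v.ring.nonunits) (c : k) :
    IsRes v (un K q c) 1 := by
  have h := isRes_one.sub ((isRes_zero_iff.mpr hv).mul (isRes_const c))
  rw [zero_mul, sub_zero] at h
  exact h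

include hq in
open Classical in
lemma Q_sub_ord (hK : IsFunctionField k K) {a : k} {v : Place k K}
    (hv : algebraMap L K q - algebraMap k K a ∈ v.ring.nonunits) (c : k) :
    ord v.ring (algebraMap L K q - algebraMap k K c) =
      if c = a then ord v.ring (algebraMap L K q - algebraMap k K a) else 0 := by
  split_ifs with h
  · rw [h]
  · have h1 : IsRes v (algebraMap L K q - algebraMap k K c) (a - c) := by
      have h2 : IsRes v (algebraMap L K q) a := hv
      exact h2.sub (isRes_const c)
    exact ord_of_res hK h1 (sub_ne_zero.mpr (Ne.symm h))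

include hK hq hG in
/-- The norm formula. -/
theorem norm_eq {g : L} (hg : g ≠ 0) (hp : ∀ P : Place k L, ord P.ring q < 0 → ord P.ring g = 0) :
    ∃ c : k, ∏ φ : Ems k K q, φ.1 g = algebraMap k K c *
      ∏ P ∈ (finite_support_ord hL hg).toFinset, un K q (rs P q) ^ (ord P.ring g) := by
  classical
  have hq0 : q ≠ 0 := by
    rintro rfl
    exact hq isAlgebraic_zero
  set S := (finite_support_ord hL hg).toFinset with hS
  set B : K := ∏ P ∈ S, un K q (rs P q) ^ (ord P.ring g) with hB
  have hB0 : B ≠ 0 := Finset.prod_ne_zero_iff.mpr fun P _ => zpow_ne_zero _ (un_ne hq _)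
  have hA0 : (∏ φ : Ems k K q, φ.1 g) ≠ 0 :=
    Finset.prod_ne_zero_iff.mpr fun φ _ => (_root_.map_ne_zero φ.1).mpr hg
  have hordB : ∀ v : Place k K, ord v.ring B =
      ∑ P ∈ S, ord P.ring g * ord v.ring (un K q (rs P q)) := by
    intro v
    rw [hB, ord_prod hK v _ _ fun P _ => zpow_ne_zero _ (un_ne hq _)]
    exact Finset.sum_congr rfl fun P _ => ord_zpow' hK (un_ne hq _) _
  -- the places in `S` are not poles of `q`
  have hreg : ∀ P ∈ S, IsRes P q (rs P q) := by
    intro P hP
    rw [hS, Set.Finite.mem_toFinset, Set.mem_ofPred_eq] at hP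
    have h1 : 0 ≤ ord P.ring q := by
      by_contra h
      exact hP (hp P (by omega))
    obtain ⟨c, hc⟩ := exists_res hL ((ord_nonneg_iff hL P hq0).mp h1)
    have h2 : rs P q = c := by
      unfold rs
      rw [dif_pos ⟨c, hc⟩]
      exact (Exists.choose_spec (⟨c, hc⟩ : ∃ c, IsRes P q c)).unique hc
    rw [h2]
    exact hc
  have key : ∀ v : Place k K, ord v.ring ((∏ φ : Ems k K q, φ.1 g) * B⁻¹) = 0 := by
    intro v
    rw [ord_mul hK v hA0 (inv_ne_zero hB0), ord_inv hK v hB0]
    by_cases hv : algebraMap L K q ∈ v.ring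
    · obtain ⟨a, ha⟩ := exists_res hK hv
      have hva : algebraMap L K q - algebraMap k K a ∈ v.ring.nonunits := ha
      set M := ord v.ring (algebraMap L K q - algebraMap k K a) with hM
      rw [ord_prod_ems hL hK hq hG hg a v hva, ← hM, hordB]
      have h1 : ∀ P ∈ S, ord P.ring g * ord v.ring (un K q (rs P q)) =
          M * (if rs P q = a then ord P.ring g else 0) -
            ord v.ring (algebraMap L K q) * ord P.ring g := by
        intro P _
        rw [ord_un hK hq, Q_sub_ord hq hK hva, ← hM]
        split_ifs <;> ring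
      rw [Finset.sum_congr rfl h1, Finset.sum_sub_distrib, ← Finset.mul_sum, ← Finset.mul_sum,
        degree_zero hL hg, mul_zero, sub_zero, ← mul_neg, ← mul_add]
      have h2 : ∑ P ∈ S, (if rs P q = a then ord P.ring g else 0) =
          ∑ P ∈ VP.fib hL hq a, ord P.ring g := by
        rw [← Finset.sum_filter]
        have h3 : S.filter (fun P => rs P q = a) ⊆ VP.fib hL hq a := by
          intro P hP
          rw [Finset.mem_filter] at hP
          rw [VP.mem_fib]
          have := hreg P hP.1
          rw [hP.2] at this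
          exact this
        refine Finset.sum_subset h3 fun P hP hP' => ?_
        by_contra h4
        apply hP'
        have hPS : P ∈ S := by
          rw [hS, Set.Finite.mem_toFinset, Set.mem_ofPred_eq]
          exact h4
        rw [Finset.mem_filter]
        refine ⟨hPS, ?_⟩
        rw [VP.mem_fib] at hP
        have h5 : IsRes P q a := hP
        exact (hreg P hPS).unique h5
      rw [h2, add_neg_cancel, mul_zero]
    · have hv' : (algebraMap L K q)⁻¹ ∈ v.ring.nonunits := by
        rw [ValuationSubring.mem_nonunits_iff_or, inv_inv]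
        exact Or.inr hv
      rw [hordB, ord_prod hK v _ _ (fun φ _ => (_root_.map_ne_zero φ.1).mpr hg)]
      rw [Finset.sum_eq_zero, Finset.sum_eq_zero]
      · rfl
      · intro P _
        rw [ord_of_res hK (un_res hv' _) one_ne_zero, mul_zero]
      · intro φ _
        obtain ⟨e, he, hord⟩ := ord_comap hL hK φ.1 v
        rw [hord g hg, hp _ ?_, mul_zero]
        have h1 : (algebraMap L K q)⁻¹ = φ.1 q⁻¹ := by rw [map_inv₀, φ.2]
        rw [h1] at hv'
        have h2 : q⁻¹ ∈ (Place.comap hL hK φ.1 v).ring.nonunits :=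
          (mem_nonunits_comap _ _ _).mpr hv'
        have h3 := (ord_pos_iff hL _ (inv_ne_zero hq0)).mpr h2
        rw [ord_inv hL _ hq0] at h3
        omega
  obtain ⟨c, hc⟩ := const_of_ord hK (mul_ne_zero hA0 (inv_ne_zero hB0)) key
  exact ⟨c, by rw [← hc, mul_assoc, inv_mul_cancel₀ hB0, mul_one]⟩

end cover

end Pool.Agent.Helper15.VB
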